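import Pool.Agent.Helper60.EV2.Exist

/-!
# The reversed mirror image of a diagram

All orientations are reversed and all crossings are changed: a one-component diagram which is descending from `b` becomes a
one-component diagram which is descending from the same edge, with the opposite writhe.
-/

set_option autoImplicit false

namespace Pool.Agent.Helper76.PD

open Pool.Agent.Helper85.Exp Pool.Agent.Helper60.EV2

variable {P : Type} {G : Sh P}

/-- The reversed shadow. -/
def rev (G : Sh P) : Sh P where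
  nxt := G.nxt.symm
  op := G.op
  op_op := G.op_op
  lf := G.lf
  lf_op := G.lf_op

/-- The status with the crossing changed. -/
def flip : St → St
  | .pos => .neg
  | .neg => .pos
  | .smooth => .smooth

theorem flip_smooth (s : St) : flip s = .smooth ↔ s = .smooth := by cases s <;> simp [flip]

theorem flip_flip (s : St) : flip (flip s) = s := by cases s <;> rfl

/-- The reversed mirror image. -/
def revD (D : Dg G) : Dg (rev G) where
  st i := flip (D.st i)
  st_op i := congrArg flip (D.st_op i)

theorem revD_st (D : Dg G) (i : P) : (revD D).st i = flip (D.st i) := rfl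

/-- The passage at which the smoothed diagram leaves. -/
noncomputable def cc (D : Dg G) (i : P) : P := open Classical in if D.st i = .smooth then G.op i else i

theorem cc_cc (D : Dg G) (i : P) : cc D (cc D i) = i := by
  unfold cc
  by_cases h : D.st i = .smooth
  · rw [if_pos h, if_pos (by rw [D.st_op]; exact h), G.op_op]
  · rw [if_neg h, if_neg h]

theorem cc_st (D : Dg G) (i : P) : D.st (cc D i) = D.st i := by
  unfold cc
  by_cases h : D.st i = .smooth
  · rw [if_pos h, D.st_op]
  · rw [if_neg h]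

theorem cc_ne (D : Dg G) {i : P} (h : D.st i ≠ .smooth) : cc D i = i := by
  unfold cc
  rw [if_neg h]

theorem tr_cc (D : Dg G) (i : P) : D.tr i = G.nxt (cc D i) := by
  unfold cc Dg.tr
  by_cases h : D.st i = .smooth
  · rw [if_pos h]
  · rw [if_neg h]

theorem rev_tr (D : Dg G) (i : P) : (revD D).tr i = G.nxt.symm (cc D i) := by
  unfold cc Dg.tr
  by_cases h : D.st i = .smooth
  · rw [if_pos h, if_pos (by rw [revD_st, h]; rfl)]; rfl
  · rw [if_neg h, if_neg (by rw [revD_st, flip_smooth]; exact h)]; rfl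

theorem rev_step (D : Dg G) (i : P) : (revD D).tr (cc D (D.tr i)) = cc D i := by
  rw [rev_tr, cc_cc, tr_cc, Equiv.symm_apply_apply]

/-- The travel along the reversed diagram. -/
theorem rev_iter (D : Dg G) (b : P) (n : ℕ) (hb : D.tr^[n + 1] b = b) (k : ℕ) (hk : k ≤ n) :
    (revD D).tr^[k] (G.nxt.symm b) = cc D (D.tr^[n - k] b) := by
  induction k with
  | zero =>
    rw [Function.iterate_zero_apply, Nat.sub_zero]
    rw [Function.iterate_succ_apply', tr_cc] at hb
    rw [Equiv.symm_apply_eq]
    exact hb.symm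
  | succ k ih =>
    rw [Function.iterate_succ_apply', ih (by omega), show n - k = (n - (k + 1)) + 1 by omega, Function.iterate_succ_apply']
    exact rev_step D _

theorem rev_ovr (D : Dg G) {i : P} (h : D.st i ≠ .smooth) : (revD D).ovr i = !D.ovr i := by
  unfold Dg.ovr
  rw [revD_st]
  cases hs : D.st i
  · simp [flip, rev]
  · simp [flip, rev]
  · exact absurd hs h

section Fin

variable [Fintype P]

theorem rev_hall (D : Dg G) (b : P) (h : ∀ i, ∃ k : ℕ, D.tr^[k] b = i) (i : P) :
    ∃ k : ℕ, (revD D).tr^[k] (G.nxt.symm b) = i := by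
  obtain ⟨n, hn, _, hper⟩ := tr_period D b
  obtain ⟨m, rfl⟩ : ∃ m, n = m + 1 := ⟨n - 1, by omega⟩
  obtain ⟨j, hj⟩ := h (cc D i)
  rw [closed_orbit D b hper] at hj
  have hlt : j % (m + 1) < m + 1 := Nat.mod_lt _ (by omega)
  refine ⟨m - j % (m + 1), ?_⟩
  rw [rev_iter D b m hper _ (by omega), show m - (m - j % (m + 1)) = j % (m + 1) by omega, hj, cc_cc]

theorem rev_per (D : Dg G) (b : P) (n : ℕ) (hb : D.tr^[n + 1] b = b) :
    (revD D).tr^[n + 1] (G.nxt.symm b) = G.nxt.symm b := by
  rw [Function.iterate_succ_apply', rev_iter D b n hb n le_rfl, Nat.sub_self, Function.iterate_zero_apply, rev_tr, cc_cc]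

theorem rev_des (hop : ∀ i, G.op i ≠ i) (D : Dg G) (b : P) (h : ∀ i, ∃ k : ℕ, D.tr^[k] b = i) (hD : Des D b) :
    Des (revD D) (G.nxt.symm b) := by
  classical
  -- the minimal period
  have hex : ∃ n : ℕ, D.tr^[n + 1] b = b := by
    obtain ⟨n, hn, _, hper⟩ := tr_period D b
    exact ⟨n - 1, by rw [show n - 1 + 1 = n by omega]; exact hper⟩
  let n := Nat.find hex
  have hper : D.tr^[n + 1] b = b := Nat.find_spec hex
  have hmin : ∀ m < n, D.tr^[m + 1] b ≠ b := fun m hm => Nat.find_min hex hm
  have hinj : ∀ i j : ℕ, i ≤ n → j ≤ n → D.tr^[i] b = D.tr^[j] b → i = j := by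
    have key : ∀ i j : ℕ, i < j → j ≤ n → D.tr^[i] b ≠ D.tr^[j] b := by
      intro i j hij hj he
      have h1 : D.tr^[j - i - 1 + 1] b = b := by
        have h2 : D.tr^[i + (j - i)] b = D.tr^[i] b := by rw [show i + (j - i) = j by omega]; exact he.symm
        rw [Function.iterate_add_apply] at h2
        have h3 := (tr_inj D).iterate i h2
        rw [show j - i - 1 + 1 = j - i by omega]
        exact h3
      exact hmin (j - i - 1) (by omega) h1
    intro i j hi hj he
    rcases lt_trichotomy i j with h1 | h1 | h1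
    · exact absurd he (key i j h1 hj)
    · exact h1
    · exact absurd he.symm (key j i h1 hi)
  have hperR := rev_per D b n hper
  -- the claim for the steps up to the period
  have main : ∀ k ≤ n, (revD D).st ((revD D).tr^[k] (G.nxt.symm b)) ≠ .smooth →
      (∀ l ≤ k, (revD D).tr^[l] (G.nxt.symm b) ≠ (rev G).op ((revD D).tr^[k] (G.nxt.symm b))) →
      (revD D).ovr ((revD D).tr^[k] (G.nxt.symm b)) = true := by
    intro k hk hs hl
    rw [rev_iter D b n hper k hk, revD_st, ne_eq, flip_smooth, cc_st] at hs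
    rw [rev_iter D b n hper k hk, cc_ne D hs] at hl ⊢
    set x := D.tr^[n - k] b with hx
    have hso : D.st (G.op x) ≠ .smooth := by rw [D.st_op]; exact hs
    rw [rev_ovr D hs]
    -- the other passage is visited before
    obtain ⟨j, hj⟩ := h (G.op x)
    rw [closed_orbit D b hper] at hj
    have hlt : j % (n + 1) < n + 1 := Nat.mod_lt _ (by omega)
    generalize j % (n + 1) = j' at hj hlt
    have hj' : j' < n - k := by
      by_contra hcon
      push Not at hcon
      apply hl (n - j') (by omega)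
      rw [rev_iter D b n hper (n - j') (by omega), show n - (n - j') = j' by omega, hj, cc_ne D hso]
      rfl
    have h1 := hD j' (by rw [hj]; exact hso) (by
      intro l hl' he
      rw [hj, G.op_op, hx] at he
      have := hinj l (n - k) (by omega) (by omega) he
      omega)
    rw [hj, ovr_op D x (hop x) hs] at h1
    exact h1
  intro k hs hl
  rw [closed_orbit (revD D) _ hperR] at hs hl ⊢
  have hlt : k % (n + 1) < n + 1 := Nat.mod_lt _ (by omega)
  exact main _ (by omega) hs fun l hl' => hl l (by have := Nat.mod_le k (n + 1); omega)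

theorem wr_rev (D : Dg G) : wr (revD D) = -wr D := by
  classical
  unfold wr
  rw [← Finset.sum_neg_distrib]
  refine Finset.sum_congr rfl fun i _ => ?_
  have h1 : ((rev G).op i ≠ i ∧ (rev G).lf i = true) ↔ (G.op i ≠ i ∧ G.lf i = true) := Iff.rfl
  by_cases h : G.op i ≠ i ∧ G.lf i = true
  · rw [if_pos h, if_pos (h1.2 h), revD_st]
    cases D.st i <;> simp [flip, sgn]
  · rw [if_neg h, if_neg (fun h2 => h (h1.1 h2)), neg_zero]

/-- The walk determinant of a descending diagram with one component. -/
theorem W_one [DecidableEq P] {R : Type*} [CommRing R] (u : Rˣ) (b : P) (D : Dg G) (h : ∀ i, ∃ k : ℕ, D.tr^[k] b = i)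
    (hD : Des D b) : W G.nxt G.op (kd (u : R) ((u⁻¹ : Rˣ) : R) D) b = 1 := by
  have h1 := F_knot (u : R) ((u⁻¹ : Rˣ) : R) b D h hD
  unfold F at h1
  rw [scal_eq] at h1
  have h2 : (((u ^ (-wr D))⁻¹ : Rˣ) : R) * ((u ^ (-wr D) : Rˣ) : R) = 1 := Units.inv_mul _
  have h3 := congrArg (fun z => (((u ^ (-wr D))⁻¹ : Rˣ) : R) * z) h1
  simp only [← mul_assoc] at h3
  rw [h2, one_mul] at h3
  exact h3

/-- The comparison of the two determinant formulas. -/
theorem exponent_zero {c c' d d' : ℚ} {m : ℤ} (hc : c ^ 2 = 1) (hc' : c' ^ 2 = 1) (hd : d' ^ 2 = d ^ 2)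
    (h1 : 1 = c * 2 ^ m * d) (h2 : 1 = c' * 2 ^ (-m) * d') : m = 0 := by
  have e1 : (1 : ℚ) = ((2 : ℚ) ^ m) ^ 2 * d ^ 2 := by
    have := congrArg (fun z => z ^ 2) h1
    rw [mul_pow, mul_pow, hc] at this
    linarith
  have e2 : (1 : ℚ) = ((2 : ℚ) ^ (-m)) ^ 2 * d ^ 2 := by
    have := congrArg (fun z => z ^ 2) h2
    rw [mul_pow, mul_pow, hc', hd] at this
    linarith
  have hd0 : d ^ 2 ≠ 0 := by
    intro h0
    rw [h0, mul_zero] at e1
    exact one_ne_zero e1
  have e3 : ((2 : ℚ) ^ m) ^ 2 = ((2 : ℚ) ^ (-m)) ^ 2 := mul_right_cancel₀ hd0 (e1.symm.trans e2)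
  have e4 : (2 : ℚ) ^ (m * 2) = (2 : ℚ) ^ (-m * 2) := by
    rw [zpow_mul, zpow_mul]
    exact_mod_cast e3
  have e5 := zpow_right_injective₀ (by norm_num : (0 : ℚ) < 2) (by norm_num) e4
  omega

end Fin

end Pool.Agent.Helper76.PD
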