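import Pool.Agent.Helper16.PD.DehnA
import Pool.Agent.Helper76.PD.Rev

/-!
# The writhe of the descending diagrams of a plane shadow

The Dehn matrix of the reversed mirror image is the same up to signs of rows, the exponent changes its sign: so the
writhe of a descending one-component diagram is determined by the shadow.
-/

set_option autoImplicit false

namespace Pool.Agent.Helper76.PD

open Pool.Agent.Helper85.Exp Pool.Agent.Helper60.EV2 Pool.Agent.Helper16.PD Matrix

variable {P F : Type} {G : Sh P}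

/-- The faces of the reversed shadow. -/
def revFa (A : Fa G F) : Fa (rev G) F where
  L p := A.R (G.nxt.symm p)
  R p := A.L (G.nxt.symm p)
  op_ne := A.op_ne
  west p hp := by
    change A.R (G.nxt.symm (G.nxt (G.op p))) = A.R (G.nxt.symm p)
    rw [Equiv.symm_apply_apply]
    exact (A.east p hp).symm
  east p hp := by
    change A.L (G.nxt.symm (G.nxt p)) = A.L (G.nxt.symm (G.op p))
    rw [Equiv.symm_apply_apply]
    exact (A.west p hp).symm
  south p hp := by
    change A.L (G.nxt.symm (G.nxt (G.op p))) = A.R (G.nxt.symm (G.nxt p))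
    rw [Equiv.symm_apply_apply, Equiv.symm_apply_apply]
    exact (A.north p hp).symm
  north p hp := by
    change A.L (G.nxt.symm p) = A.R (G.nxt.symm (G.op p))
    exact (A.south p hp).symm
  surj f := by
    obtain ⟨p, hp⟩ := A.surj f
    refine ⟨G.nxt p, ?_⟩
    rw [Equiv.symm_apply_apply]
    exact hp.symm

theorem revConn (h : Helper2.PD.Conn G) : Helper2.PD.Conn (rev G) := by
  intro C hC hnx hop
  refine h C hC ?_ hop
  intro p
  have h1 : C (G.nxt.symm (G.nxt p)) ↔ C (G.nxt p) := hnx (G.nxt p)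
  rw [Equiv.symm_apply_apply] at h1
  exact h1.symm

/-- The sign of a row. -/
def rsgn : St → ℤ
  | .pos => 1
  | .neg => 1
  | .smooth => -1

variable [Fintype P] [DecidableEq P] [Fintype F] [DecidableEq F]

theorem dn_rev {R : Type} [CommRing R] (A : Fa G F) (s t : R) (D : Dg G) (x : Cr G) (f : F) :
    (revFa A).dn s t (revD D) x f = (rsgn (D.st x.1) : R) * A.dn s t D x f := by
  have h1 := A.west x.1 x.2
  have h2 := A.east x.1 x.2
  have h3 := A.south x.1 x.2
  have h4 := A.north x.1 x.2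
  have e1 : (revFa A).R x.1 = A.L (G.nxt.symm x.1) := rfl
  have e2 : (revFa A).L ((rev G).nxt.symm x.1) = A.R x.1 := by
    change A.R (G.nxt.symm (G.nxt x.1)) = A.R x.1
    rw [Equiv.symm_apply_apply]
  have e3 : (revFa A).L x.1 = A.R (G.op x.1) := h2
  have e4 : (revFa A).R ((rev G).op x.1) = A.L x.1 := h1
  unfold Fa.dn
  rw [revD_st, e1, e2, e3, e4]
  cases D.st x.1
  · simp only [flip, rsgn]
    push_cast
    ring
  · simp only [flip, rsgn]
    push_cast
    ring
  · simp only [flip, rsgn]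
    push_cast
    ring

theorem det_dn_rev {R : Type} [CommRing R] (A : Fa G F) (s t : R) (D : Dg G) (e : Cr G → F) :
    (Matrix.of fun (x y : Cr G) => (revFa A).dn s t (revD D) x (e y)).det ^ 2 =
      (Matrix.of fun (x y : Cr G) => A.dn s t D x (e y)).det ^ 2 := by
  have h : (Matrix.of fun (x y : Cr G) => (revFa A).dn s t (revD D) x (e y)) =
      diagonal (fun x : Cr G => (rsgn (D.st x.1) : R)) * Matrix.of fun (x y : Cr G) => A.dn s t D x (e y) := by
    ext x y
    rw [diagonal_mul, Matrix.of_apply, Matrix.of_apply]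
    exact dn_rev A s t D x (e y)
  rw [h, det_mul, det_diagonal, mul_pow, ← Finset.prod_pow]
  have h2 : ∀ x : Cr G, ((rsgn (D.st x.1) : R)) ^ 2 = 1 := by
    intro x
    cases D.st x.1 <;> simp [rsgn]
  rw [Finset.prod_congr rfl fun x _ => h2 x, Finset.prod_const_one, one_mul]

/-- The unit two. -/
def two : ℚˣ := Units.mk0 2 two_ne_zero

/-- The writhe of the descending one-component diagrams. -/
theorem wr_eq (A : Fa G F) (b : P) (e : Cr G → F) (α : ℤ) {c c' : ℤ} (hc : c = 1 ∨ c = -1) (hc' : c' = 1 ∨ c' = -1)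
    (hA : ∀ D : Dg G, W G.nxt G.op (kd (two : ℚ) ((two⁻¹ : ℚˣ) : ℚ) D) b =
      (c : ℚ) * ((two ^ (α + wr D) : ℚˣ) : ℚ) * (Matrix.of fun (x y : Cr G) => A.dn (two : ℚ) ((two⁻¹ : ℚˣ) : ℚ) D x (e y)).det)
    (hA' : ∀ D : Dg (rev G), W (rev G).nxt (rev G).op (kd (two : ℚ) ((two⁻¹ : ℚˣ) : ℚ) D) (G.nxt.symm b) =
      (c' : ℚ) * ((two ^ (-α + wr D) : ℚˣ) : ℚ) *
        (Matrix.of fun (x y : Cr G) => (revFa A).dn (two : ℚ) ((two⁻¹ : ℚˣ) : ℚ) D x (e y)).det)
    (D : Dg G) (h : ∀ i, ∃ k : ℕ, D.tr^[k] b = i) (hD : Des D b) : wr D = -α := by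
  have h1 := hA D
  have h2 := hA' (revD D)
  rw [W_one two b D h hD] at h1
  rw [W_one (G := rev G) two (G.nxt.symm b) (revD D) (rev_hall D b h) (rev_des A.op_ne D b h hD), wr_rev] at h2
  have hcc : ((c : ℚ)) ^ 2 = 1 := by rcases hc with rfl | rfl <;> norm_num
  have hcc' : ((c' : ℚ)) ^ 2 = 1 := by rcases hc' with rfl | rfl <;> norm_num
  have t1 : ∀ m : ℤ, ((two ^ m : ℚˣ) : ℚ) = 2 ^ m := by
    intro m
    rw [Units.val_zpow_eq_zpow_val]
    rfl
  rw [t1] at h1 h2
  rw [show -α + -wr D = -(α + wr D) by ring] at h2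
  have := exponent_zero hcc hcc' (det_dn_rev A _ _ D e) h1 h2
  omega

/-- The writhe of the descending one-component diagrams of a connected plane shadow. -/
theorem wr_des (A : Fa G F) (hc : Helper2.PD.Conn G) (κ : F → ℤ) (hκ : ∀ p, κ (A.L p) = κ (A.R p) + 1) (b : P) (ε : Cr G ≃ A.Fr b)
    (D : Dg G) (h : ∀ i, ∃ k : ℕ, D.tr^[k] b = i) (hD : Des D b) :
    wr D = -((∑ y : Cr G, κ (ε y).1) - ∑ x : Cr G, κ (A.R x.1)) := by
  obtain ⟨c, h1, h2⟩ := dehn A hc κ hκ b ε
  have hset : ∀ f : F, (f ≠ A.L (G.nxt.symm b) ∧ f ≠ A.R (G.nxt.symm b)) ↔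
      (f ≠ (revFa A).L ((rev G).nxt.symm (G.nxt.symm b)) ∧ f ≠ (revFa A).R ((rev G).nxt.symm (G.nxt.symm b))) := by
    intro f
    change _ ↔ (f ≠ A.R (G.nxt.symm (G.nxt (G.nxt.symm b))) ∧ f ≠ A.L (G.nxt.symm (G.nxt (G.nxt.symm b))))
    rw [Equiv.symm_apply_apply, and_comm]
  let ε' : Cr (rev G) ≃ (revFa A).Fr (G.nxt.symm b) := ε.trans (Equiv.subtypeEquivRight hset)
  have hκ' : ∀ p, (-κ) ((revFa A).L p) = (-κ) ((revFa A).R p) + 1 := by
    intro p
    change -κ (A.R (G.nxt.symm p)) = -κ (A.L (G.nxt.symm p)) + 1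
    rw [hκ]
    ring
  obtain ⟨c', h1', h2'⟩ := dehn (revFa A) (revConn hc) (-κ) hκ' (G.nxt.symm b) ε'
  have hα : ((∑ y : Cr (rev G), (-κ) (ε' y).1) - ∑ x : Cr (rev G), (-κ) ((revFa A).R x.1)) =
      -((∑ y : Cr G, κ (ε y).1) - ∑ x : Cr G, κ (A.R x.1)) := by
    have e1 : (∑ y : Cr (rev G), (-κ) (ε' y).1) = -∑ y : Cr G, κ (ε y).1 := by
      rw [← Finset.sum_neg_distrib]; rfl
    have e2 : (∑ x : Cr (rev G), (-κ) ((revFa A).R x.1)) = -∑ x : Cr G, κ (A.R x.1) := by
      rw [← Finset.sum_neg_distrib]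
      refine Finset.sum_congr rfl fun x _ => ?_
      change -κ (A.L (G.nxt.symm x.1)) = -κ (A.R x.1)
      have k1 := hκ x.1
      have k2 := hκ (G.nxt.symm (G.op x.1))
      rw [A.west x.1 x.2, A.south x.1 x.2] at k2
      omega
    rw [e1, e2]
    ring
  refine wr_eq A b (fun y => (ε y).1) _ h1 h1' (fun D => h2 ℚ two D) (fun D => ?_) D h hD
  rw [← hα]
  exact h2' ℚ two D

end Pool.Agent.Helper76.PD
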